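import Mathlib
import Pool.Agent.Lib.Pe29ee7.Embed

set_option autoImplicit false

open Set Cardinal Pool.Agent.Lib.Pe29ee7

namespace Pool.Agent.Results.MP_e29ee7_lc.EventualDominance

/-- A tree: a partial order in which the points strictly below any given point form a chain. -/
def IsTree (T : Type) [PartialOrder T] : Prop :=
  ∀ x : T, IsChain (· ≤ ·) {y : T | y < x}

/-- `T` is the union of countably many chains. -/
def CountableUnionOfChains (T : Type) [PartialOrder T] : Prop :=
  ∃ L : ℕ → Set T, (∀ n, IsChain (· ≤ ·) (L n)) ∧ (⋃ n, L n) = Set.univ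

/-- `C(T)`: the maximal chains of `T`. -/
def MaxChains (T : Type) [PartialOrder T] : Type :=
  {c : Set T // IsMaxChain (· ≤ ·) c}

/-- `A ≤ B` in `C(T)`: there is an order-preserving injection from `A` to `B`. -/
def Embeds {T : Type} [PartialOrder T] (A B : MaxChains T) : Prop :=
  ∃ φ : ↥A.1 → ↥B.1, Function.Injective φ ∧ Monotone φ

/-- The cofinality of a family `K` of members of `C(T)`: the least cardinality of a subfamily `D`
such that every member of `K` embeds into a member of `D`. -/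
noncomputable def cofinality {T : Type} [PartialOrder T] (K : Set (MaxChains T)) : Cardinal :=
  sInf {κ | ∃ D : Set (MaxChains T), D ⊆ K ∧ (∀ A ∈ K, ∃ B ∈ D, Embeds A B) ∧ #D = κ}

/-- Eventual domination of functions. -/
def EventuallyLE (f g : ℕ → ℕ) : Prop := ∃ m, ∀ n, m ≤ n → f n ≤ g n

/-- The bounding number `𝔟`: the least cardinality of a family of functions which is not bounded
under eventual domination. -/
noncomputable def boundingNumber : Cardinal :=
  sInf {κ | ∃ F : Set (ℕ → ℕ), (¬ ∃ g, ∀ f ∈ F, EventuallyLE f g) ∧ #F = κ}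

namespace EventualDominanceAux

variable {X : ℕ × ℕ → Set ℝ}

/-- If `f n < g n` for infinitely many `n` then the branch of `g` does not embed into the branch
of `f`. -/
theorem not_embed
    (hX1 : ∀ q (a b : ℝ), a < b → (X q ∩ Ioo a b).Nonempty)
    (hX2 : ∀ q (a b : ℝ), a < b → ∀ F : ℝ → ℝ, StrictMonoOn F (X q ∩ Ioo a b) →
        ∃ x ∈ X q ∩ Ioo a b, ∀ q', q' ≠ q → F x ∉ X q')
    {f g : ℕ → ℕ} (h : ∀ m, ∃ n, m ≤ n ∧ f n < g n) :
    IsEmpty (↥(branch X g) ↪o ↥(branch X f)) := by
  constructor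
  intro φ
  obtain ⟨n₀, -, hn₀⟩ := h 0
  obtain ⟨p, hp1, hp2⟩ := level_drop hX1 hX2 φ hn₀
  obtain ⟨n, hn, hfg⟩ := h (n₀ + 1 + ((φ p).1.z).natAbs)
  obtain ⟨q, hq1, hq2⟩ := level_drop hX1 hX2 φ hfg
  have h1 : p ≤ q := (branch_le_iff p.2 q.2).mpr (Or.inl (by rw [hp1, hq1]; omega))
  have h3 : (φ p).1.z ≤ (φ q).1.z := z_le_of_le (φ.monotone h1)
  omega

theorem branch_injective (hX : ∀ q, (X q).Nonempty) {f g : ℕ → ℕ}
    (h : branch X f = branch X g) : f = g := by
  funext n
  obtain ⟨x, hx⟩ := hX (n, 0)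
  have h1 : pt f n 0 (Nat.zero_le _) x hx ∈ branch X g := by
    rw [← h]; exact pt_mem f n 0 (Nat.zero_le _) x hx
  have h2 : (pt f n 0 (Nat.zero_le _) x hx).s n = g n := h1 n (le_refl _)
  have h3 : (pt f n 0 (Nat.zero_le _) x hx).s n = f n := pt_mem f n 0 (Nat.zero_le _) x hx n (le_refl _)
  rw [← h3, h2]

/-- An order embedding between chains from an injective monotone map. -/
theorem nonempty_orderEmbedding {T : Type} [PartialOrder T] {A B : Set T}
    (hA : IsChain (· ≤ ·) A) (φ : ↥A → ↥B) (h1 : Function.Injective φ) (h2 : Monotone φ) :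
    Nonempty (↥A ↪o ↥B) := by
  refine ⟨⟨⟨φ, h1⟩, ?_⟩⟩
  intro a b
  constructor
  · intro h
    rcases hA.total a.2 b.2 with h' | h'
    · exact h'
    · have h3 : φ b ≤ φ a := h2 h'
      have h4 : φ a = φ b := le_antisymm h h3
      exact le_of_eq (h1 h4)
  · intro h
    exact h2 h

theorem embeds_iff {T : Type} [PartialOrder T] (A B : MaxChains T) :
    Embeds A B ↔ Nonempty (↥A.1 ↪o ↥B.1) := by
  constructor
  · rintro ⟨φ, h1, h2⟩
    exact nonempty_orderEmbedding A.2.1 φ h1 h2
  · rintro ⟨φ⟩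
    exact ⟨φ, φ.injective, φ.monotone⟩

theorem embeds_trans {T : Type} [PartialOrder T] {A B C : MaxChains T}
    (h : Embeds A B) (h' : Embeds B C) : Embeds A C := by
  obtain ⟨φ, h1, h2⟩ := h
  obtain ⟨ψ, h3, h4⟩ := h'
  exact ⟨ψ ∘ φ, h3.comp h1, h4.comp h2⟩

theorem mk_tree_le : #(TreeT X) ≤ 𝔠 := by
  let F : TreeT X → ℤ × (ℕ → ℕ) × ℝ := fun p => (p.z, p.s, p.x)
  have hF : Function.Injective F := by
    intro p q h
    simp only [F, Prod.mk.injEq] at h
    exact TreeT.ext' h.1 h.2.1 h.2.2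
  refine (Cardinal.mk_le_of_injective hF).trans ?_
  have h1 : #(ℕ → ℕ) = 𝔠 := by simp
  have h2 : #(ℤ × (ℕ → ℕ) × ℝ) = ℵ₀ * (𝔠 * 𝔠) := by
    rw [Cardinal.mk_prod, Cardinal.mk_prod, Cardinal.lift_id, Cardinal.lift_id, Cardinal.lift_id,
      Cardinal.lift_id, h1, Cardinal.mk_real, Cardinal.mk_int]
  rw [h2, Cardinal.continuum_mul_self, Cardinal.aleph0_mul_continuum]

theorem aleph0_lt_boundingNumber : ℵ₀ < boundingNumber := by
  rw [boundingNumber]
  have hne : {κ | ∃ F : Set (ℕ → ℕ), (¬ ∃ g, ∀ f ∈ F, EventuallyLE f g) ∧ #F = κ}.Nonempty := by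
    refine ⟨_, Set.univ, ?_, rfl⟩
    rintro ⟨g, hg⟩
    obtain ⟨m, hm⟩ := hg (fun n => g n + 1) (mem_univ _)
    have h1 : g m + 1 ≤ g m := hm m le_rfl
    omega
  obtain ⟨F, hF, hF'⟩ := csInf_mem hne
  rw [← hF']
  by_contra hcon
  have hc : F.Countable := by
    rw [← Cardinal.le_aleph0_iff_set_countable]
    exact not_lt.mp hcon
  obtain ⟨g, hg⟩ := exists_dominating F hc
  exact hF ⟨g, fun f hf => (hg f hf).imp fun m hm n hn => (hm n hn).le⟩

end EventualDominanceAux

open EventualDominanceAux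

/-- There is a tree `T` of size at most continuum, a union of countably many chains, whose maximal chains ordered by
embeddability are exactly the functions `ℕ → ℕ` ordered by eventual domination. Every chain of
`C(T)` extends to a maximal one, and every maximal chain of `C(T)` has cofinality at least the
bounding number, in particular uncountable cofinality. -/
theorem result : ∃ (T : Type) (_ : PartialOrder T), #T ≤ 𝔠 ∧ IsTree T ∧
    CountableUnionOfChains T ∧
    (∃ b : (ℕ → ℕ) ≃ MaxChains T, ∀ f g, Embeds (b f) (b g) ↔ EventuallyLE f g) ∧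
    (∀ K₀ : Set (MaxChains T), IsChain Embeds K₀ → ∃ K, K₀ ⊆ K ∧ IsMaxChain Embeds K) ∧
    (∀ K : Set (MaxChains T), IsMaxChain Embeds K →
      boundingNumber ≤ cofinality K ∧ ℵ₀ < cofinality K) := by
  classical
  obtain ⟨X, hX1, hX2⟩ := exists_rigid_family
  have hXne : ∀ q, (X q).Nonempty := fun q => (hX1 q 0 1 one_pos).mono inter_subset_left
  have hbij : Function.Bijective
      (fun f : ℕ → ℕ => (⟨branch X f, branch_maxChain hXne f⟩ : MaxChains (TreeT X))) := by
    constructor
    · intro f g h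
      exact branch_injective hXne (congrArg Subtype.val h)
    · rintro ⟨c, hc⟩
      obtain ⟨f, hf⟩ := chain_subset_branch hc.1
      exact ⟨f, Subtype.ext (hc.2 (branch_chain f) hf).symm⟩
  let b : (ℕ → ℕ) ≃ MaxChains (TreeT X) := Equiv.ofBijective _ hbij
  have hb : ∀ f g, Embeds (b f) (b g) ↔ EventuallyLE f g := by
    intro f g
    rw [embeds_iff]
    constructor
    · intro h
      by_contra hcon
      have h' : ∀ m, ∃ n, m ≤ n ∧ g n < f n := by
        intro m
        by_contra hm
        push Not at hm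
        exact hcon ⟨m, hm⟩
      exact (not_embed hX1 hX2 h').false h.some
    · rintro ⟨m, hm⟩
      exact branch_embed hm
  refine ⟨TreeT X, inferInstance, mk_tree_le, isTree, union_of_chains, ⟨b, hb⟩, ?_, ?_⟩
  · intro K₀ hK₀
    obtain ⟨K, hK, hsub⟩ := hK₀.exists_maxChain
    exact ⟨K, hsub, hK⟩
  · intro K hK
    have hmain : boundingNumber ≤ cofinality K := by
      have hne : {κ | ∃ D : Set (MaxChains (TreeT X)), D ⊆ K ∧
          (∀ A ∈ K, ∃ B ∈ D, Embeds A B) ∧ #D = κ}.Nonempty :=
        ⟨_, K, subset_rfl, fun A hA => ⟨A, hA, ⟨id, Function.injective_id, monotone_id⟩⟩, rfl⟩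
      obtain ⟨D, hDK, hD, hDc⟩ := csInf_mem hne
      change boundingNumber ≤ sInf _
      rw [← hDc]
      -- the functions of the members of `D` are unbounded
      have hunb : ¬ ∃ g, ∀ f ∈ b.symm '' D, EventuallyLE f g := by
        rintro ⟨g, hg⟩
        let g' : ℕ → ℕ := fun n => g n + 1
        have hg' : ∀ B ∈ D, Embeds B (b g') := by
          intro B hB
          obtain ⟨m, hm⟩ := hg (b.symm B) ⟨B, hB, rfl⟩
          have h1 : Embeds (b (b.symm B)) (b g') :=
            (hb _ _).mpr ⟨m, fun n hn => (hm n hn).trans (Nat.le_succ _)⟩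
          rwa [Equiv.apply_symm_apply] at h1
        have habove : ∀ A ∈ K, Embeds A (b g') := by
          intro A hA
          obtain ⟨B, hB, hAB⟩ := hD A hA
          exact embeds_trans hAB (hg' B hB)
        have hins : IsChain Embeds (insert (b g') K) :=
          hK.1.insert fun A hA _ => Or.inr (habove A hA)
        have hgK : b g' ∈ K := by
          rw [hK.2 hins (subset_insert _ _)]
          exact mem_insert _ _
        obtain ⟨B, hB, hAB⟩ := hD _ hgK
        obtain ⟨m, hm⟩ := hg (b.symm B) ⟨B, hB, rfl⟩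
        have h1 : Embeds (b g') (b (b.symm B)) := by rwa [Equiv.apply_symm_apply]
        obtain ⟨m', hm'⟩ := (hb _ _).mp h1
        have h2 := hm (max m m') (le_max_left _ _)
        have h3 := hm' (max m m') (le_max_right _ _)
        simp only [g'] at h3
        omega
      have hcard : #(b.symm '' D : Set (ℕ → ℕ)) = #D := Cardinal.mk_image_eq b.symm.injective
      rw [← hcard]
      exact csInf_le' ⟨_, hunb, rfl⟩
    exact ⟨hmain, aleph0_lt_boundingNumber.trans_le hmain⟩

end Pool.Agent.Results.MP_e29ee7_lc.EventualDominance
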